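import Pool.Agent.H55.FH.Vec
import Pool.Agent.H12.FG.Star

/-! # Crew FH, part I1 -/

open MvPolynomial

namespace H55.FH
open H95.FG H95.FH

theorem dp_add {m : ℕ} {p : P3 m} (u v y : Fin 3 → ℂ) : dp p (u + v) y = dp p u y + dp p v y := by
  funext j
  unfold dp
  rw [Pi.add_apply, ← Finset.sum_add_distrib]
  refine Finset.sum_congr rfl fun k _ => ?_
  rw [Pi.add_apply, add_mul]

/-- `A` on a pair of affine lines -/
noncomputable def LL (A : Q3) (z u V W : Fin 3 → ℂ) : Polynomial ℂ :=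
  aeval (Sum.elim (fun k => Polynomial.C (z k) + Polynomial.C (u k) * Polynomial.X)
    (fun k => Polynomial.C (V k) + Polynomial.C (W k) * Polynomial.X)) A

theorem eval_LL (A : Q3) (z u V W : Fin 3 → ℂ) (x : ℂ) :
    (LL A z u V W).eval x = AA A (z + x • u) (V + x • W) := by
  unfold LL AA
  rw [H87.FG.eval_aeval]
  congr 2
  funext i
  rcases i with k | k
  · simp only [Sum.elim_inl, Polynomial.eval_add, Polynomial.eval_C, Polynomial.eval_mul,
      Polynomial.eval_X, Pi.add_apply, Pi.smul_apply, smul_eq_mul]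
    ring
  · simp only [Sum.elim_inr, Polynomial.eval_add, Polynomial.eval_C, Polynomial.eval_mul,
      Polynomial.eval_X, Pi.add_apply, Pi.smul_apply, smul_eq_mul]
    ring

theorem core (hBAS : S_BAS) (hINJ : S_INJ) (hPAR : S_PAR) (hSWAP : S_SWAP) {m d : ℕ} {p : P3 m}
    {A : Q3} (hc : Ctx m d p A) {z0 : Fin 3 → ℂ} {ε : ℝ}
    (hyp : ∀ z, ‖z - z0‖ < ε → Good p A z) {z : Fin 3 → ℂ} (hz : ‖z - z0‖ < ε)
    {Y1 : Fin 3 → ℂ} (hY10 : Y1 ≠ 0) (hzY : dt z Y1 = 0)
    (hZ : ∀ z', dt z' Y1 = 0 → AA A z' Y1 = 0) :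
    (∀ Y, Root A z Y → ∃ c : ℂ, Y = c • Y1) ∧
    (∀ U, ∃ c : ℂ, dp (cp p) U Y1 = c • ev (cp p) Y1) := by
  classical
  obtain ⟨hK, hp1, hp2, hA1, hA2, -⟩ := hBAS m d p A hc
  obtain ⟨hc', hsw, hdsw, -⟩ := hSWAP m d p A hc
  have hd := hc.hd
  have hgz := hyp z hz
  have hz0' : z ≠ 0 := by
    rintro rfl
    apply hgz.1
    have := hp1 0 0
    rw [zero_smul, zero_pow (by omega), zero_smul] at this
    exact this
  have hE1 : ev (cp p) Y1 ≠ 0 := hgz.2.1 Y1 hY10 hzY
  obtain ⟨h, hh⟩ := exists_dual hY10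
  obtain ⟨k, hk⟩ := exists_dual hz0'
  obtain ⟨u, hu0, huY, hku⟩ : ∃ u : Fin 3 → ℂ, u ≠ 0 ∧ dt u Y1 = 0 ∧ dt k u = 0 :=
    ⟨cr Y1 k, cr_ne hY10 (by rw [dt_comm]; exact hzY) hk, by rw [dt_comm]; exact cr_left _ _,
      cr_right _ _⟩
  have hztY : ∀ t : ℂ, dt (z + t • u) Y1 = 0 := by
    intro t; rw [dt_add_left, dt_smul_left, hzY, huY]; ring
  have hztk : ∀ t : ℂ, dt k (z + t • u) = dt k z := by
    intro t; rw [dt_add_right, dt_smul_right, hku]; ring
  have hzt0 : ∀ t : ℂ, z + t • u ≠ 0 := by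
    intro t h0
    apply hk
    rw [← hztk t, h0, dt_zero_right]
  -- the second basis vector
  have hWt : ∀ t : ℂ, cr (z + t • u) h = cr z h + t • cr u h := by
    intro t
    apply vext
    · simp only [cr_apply0, Pi.add_apply, Pi.smul_apply, smul_eq_mul]; ring
    · simp only [cr_apply1, Pi.add_apply, Pi.smul_apply, smul_eq_mul]; ring
    · simp only [cr_apply2, Pi.add_apply, Pi.smul_apply, smul_eq_mul]; ring
  obtain ⟨W, hW⟩ : ∃ W : ℂ → (Fin 3 → ℂ), ∀ t, W t = cr (z + t • u) h := ⟨_, fun t => rfl⟩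
  have hWz : ∀ t, dt (z + t • u) (W t) = 0 := fun t => by rw [hW]; exact cr_left _ _
  have hWh : ∀ t, dt h (W t) = 0 := fun t => by rw [hW]; exact cr_right _ _
  have hW0 : ∀ t, W t ≠ 0 := fun t => by rw [hW]; exact cr_ne (hzt0 t) (hztY t) hh
  have hliW : ∀ t, LinearIndependent ℂ ![Y1, W t] := by
    intro t
    rw [li_iff hY10]
    intro c hcW
    have h1 : dt h (W t) = c * dt h Y1 := by rw [← hcW, dt_smul_right]
    rw [hWh] at h1
    have h2 : c = 0 := (mul_eq_zero.1 h1.symm).resolve_right hh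
    rw [h2, zero_smul] at hcW
    exact hW0 t hcW.symm
  have hdec : ∀ (t : ℂ) (Y : Fin 3 → ℂ), dt (z + t • u) Y = 0 → ∃ α β : ℂ, Y = α • Y1 + β • W t := by
    intro t Y hY
    have h1 : dt (Y - (dt h Y / dt h Y1) • Y1) (z + t • u) = 0 := by
      rw [dt_comm, dt_sub_right, dt_smul_right, hY, hztY]; ring
    have h2 : dt (Y - (dt h Y / dt h Y1) • Y1) h = 0 := by
      rw [dt_comm, dt_sub_right, dt_smul_right, div_mul_cancel₀ _ hh, sub_self]
    obtain ⟨β, hβ⟩ := perp2 (by rw [← hW]; exact hW0 t) h1 h2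
    refine ⟨dt h Y / dt h Y1, β, ?_⟩
    rw [hW, ← hβ]; abel
  -- the exceptional set
  obtain ⟨S, hS⟩ : ∃ S : Set ℂ, S = {t | ‖(z + t • u) - z0‖ < ε ∧
    ∃ Y2, Root A (z + t • u) Y2 ∧ LinearIndependent ℂ ![Y1, Y2]} := ⟨_, rfl⟩
  have hSfin : S.Finite := by
    by_contra hinf
    have hinf' : S.Infinite := hinf
    have hch : ∀ t ∈ S, ∃ Y2, Root A (z + t • u) Y2 ∧ LinearIndependent ℂ ![Y1, Y2] := by
      intro t ht; rw [hS] at ht; exact ht.2
    have hball : ∀ t ∈ S, ‖(z + t • u) - z0‖ < ε := by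
      intro t ht; rw [hS] at ht; exact ht.1
    choose! f hf using hch
    apply hE1
    refine H12.FG.t_STAR 3 m (cp p) (sw A) hc'.sys Y1 f S hinf' ?_ ?_
    · intro σ hσ τ hτ hne
      by_contra hnli
      obtain ⟨⟨fσ0, fσz, -⟩, hliσ⟩ := hf σ hσ
      obtain ⟨⟨fτ0, fτz, -⟩, -⟩ := hf τ hτ
      obtain ⟨c, hcc⟩ := mult_of_not_li fσ0 hnli
      have hc0 : c ≠ 0 := by rintro rfl; rw [zero_smul] at hcc; exact fτ0 hcc
      rw [hcc, dt_smul_right] at fτz
      have e1 : dt (z + τ • u) (f σ) = 0 := (mul_eq_zero.1 fτz).resolve_left hc0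
      rw [dt_add_left, dt_smul_left] at e1 fσz
      have e2 : (τ - σ) * dt u (f σ) = 0 := by linear_combination e1 - fσz
      have e3 : dt u (f σ) = 0 := (mul_eq_zero.1 e2).resolve_left (sub_ne_zero.2 (Ne.symm hne))
      have e4 : dt z (f σ) = 0 := by rw [e3] at fσz; linear_combination fσz
      have hcr : cr u z ≠ 0 := cr_ne (Y := k) hu0 (by rw [dt_comm]; exact hku)
        (by rw [dt_comm]; exact hk)
      obtain ⟨a, ha⟩ := perp2 hcr (by rw [dt_comm]; exact e3) (by rw [dt_comm]; exact e4)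
      obtain ⟨b, hb⟩ := perp2 hcr (x := Y1) (by rw [dt_comm]; exact huY)
        (by rw [dt_comm]; exact hzY)
      have hb0 : b ≠ 0 := by rintro rfl; rw [zero_smul] at hb; exact hY10 hb
      rw [li_iff hY10] at hliσ
      apply hliσ (a / b)
      rw [ha, hb, smul_smul, div_mul_cancel₀ _ hb0]
    · intro σ hσ
      obtain ⟨hRσ, hliσ⟩ := hf σ hσ
      have hg := hyp _ (hball σ hσ)
      have hinj := hINJ m d p A hc _ hg.1 hg.2.2
      have hR1 : Root A (z + σ • u) Y1 := ⟨hY10, hztY σ, hZ _ (hztY σ)⟩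
      obtain ⟨c, hcc⟩ := mult_of_not_li hE1 ((hPAR m d p A hc _ hinj).1 Y1 (f σ) hR1 hRσ)
      refine ⟨c, ?_, hcc⟩
      rintro rfl
      rw [zero_smul] at hcc
      exact hg.2.1 _ hRσ.1 hRσ.2.1 hcc
  -- the ball
  obtain ⟨r, hr0, hr⟩ : ∃ r : ℝ, 0 < r ∧ ∀ t : ℂ, ‖t‖ < r → ‖(z + t • u) - z0‖ < ε := by
    have hup : 0 < ‖u‖ := norm_pos_iff.2 hu0
    refine ⟨(ε - ‖z - z0‖) / ‖u‖, div_pos (by linarith) hup, fun t ht => ?_⟩
    rw [lt_div_iff₀ hup] at ht
    have h1 : (z + t • u) - z0 = (z - z0) + t • u := by abel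
    rw [h1]
    calc ‖(z - z0) + t • u‖ ≤ ‖z - z0‖ + ‖t • u‖ := norm_add_le _ _
      _ = ‖z - z0‖ + ‖t‖ * ‖u‖ := by rw [norm_smul]
      _ < ε := by linarith
  have hOinf : ({t : ℂ | ‖t‖ < r} \ S).Infinite := (H87.FG.ball_infinite hr0).diff hSfin
  -- no dependence on `Y1`
  have hconst0 : ∀ t ∈ {t : ℂ | ‖t‖ < r} \ S, ∀ l : ℂ,
      AA A (z + t • u) (W t + l • Y1) = AA A (z + t • u) (W t) := by
    intro t ht l
    obtain ⟨P, hP⟩ : ∃ P : Polynomial ℂ, ∀ x, P.eval x = AA A (z + t • u) (W t + x • Y1) :=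
      ⟨H87.FG.LA (sw A) (W t) Y1 (z + t • u), fun x => by rw [H87.FG.eval_LA, hsw]⟩
    have hdeg : P.degree = 0 := by
      by_contra hne
      obtain ⟨x, hx⟩ := IsAlgClosed.exists_root P hne
      apply ht.2
      rw [hS]
      have hli : LinearIndependent ℂ ![Y1, W t + x • Y1] := by
        rw [LinearIndependent.pair_iff]
        intro a b hab
        have := (LinearIndependent.pair_iff.1 (hliW t)) (a + b * x) b (by
          rw [← hab, add_smul, smul_add, smul_smul]; abel)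
        refine ⟨?_, this.2⟩
        have h1 := this.1
        rw [this.2, zero_mul, add_zero] at h1
        exact h1
      refine ⟨hr t ht.1, W t + x • Y1, ⟨hli.ne_zero 1, ?_, ?_⟩, hli⟩
      · rw [dt_add_right, dt_smul_right, hWz, hztY]; ring
      · rw [← hP]; exact hx
    have hC := Polynomial.eq_C_of_degree_eq_zero hdeg
    have h1 := hP l
    have h2 := hP 0
    rw [hC, Polynomial.eval_C] at h1 h2
    rw [zero_smul, add_zero] at h2
    rw [← h1, ← h2]
  have hconst : ∀ t l : ℂ, AA A (z + t • u) (W t + l • Y1) = AA A (z + t • u) (W t) := by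
    intro t l
    have heq : LL A z u (cr z h + l • Y1) (cr u h) = LL A z u (cr z h) (cr u h) := by
      apply H87.FG.poly_ext_inf hOinf
      intro x hx
      rw [eval_LL, eval_LL]
      have := hconst0 x hx l
      rw [hW, hWt] at this
      rw [← this]
      congr 1
      abel
    have h1 := eval_LL A z u (cr z h + l • Y1) (cr u h) t
    rw [heq, eval_LL] at h1
    rw [hW, hWt, h1]
    congr 1
    abel
  have hform : ∀ t l n : ℂ, AA A (z + t • u) (l • Y1 + n • W t) =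
      n ^ d * AA A (z + t • u) (W t) := by
    intro t l n
    by_cases hn : n = 0
    · rw [hn, zero_smul, add_zero, hA2, hZ _ (hztY t), zero_pow (by omega)]; ring
    · have h1 : l • Y1 + n • W t = n • (W t + (l / n) • Y1) := by
        rw [smul_add, smul_smul, mul_div_cancel₀ _ hn]; abel
      rw [h1, hA2, hconst]
  refine ⟨?_, ?_⟩
  · -- uniqueness of the root
    intro Y hR
    have e0 : z + (0 : ℂ) • u = z := by rw [zero_smul, add_zero]
    obtain ⟨α, β, hY⟩ := hdec 0 Y (by rw [e0]; exact hR.2.1)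
    obtain ⟨Y', hY'z, hY'A⟩ := hgz.2.2
    obtain ⟨α', β', hY'⟩ := hdec 0 Y' (by rw [e0]; exact hY'z)
    have h1 := hform 0 α β
    have h2 := hform 0 α' β'
    rw [e0, ← hY, hR.2.2] at h1
    rw [e0, ← hY'] at h2
    have h3 : AA A z (W 0) ≠ 0 := by
      intro h0
      rw [h0, mul_zero] at h2
      exact hY'A h2
    have h4 : β = 0 := by
      have := (mul_eq_zero.1 h1.symm).resolve_right h3
      exact pow_eq_zero_iff (by omega) |>.1 this
    refine ⟨α, ?_⟩
    rw [hY, h4, zero_smul, add_zero]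
  · -- degeneracy
    have hstep : ∀ t : ℂ, ‖t‖ < r → ∀ U, dt (z + t • u) U = 0 →
        ∃ c : ℂ, dp (cp p) U Y1 = c • ev (cp p) Y1 := by
      intro t ht U hU
      have hg := hyp _ (hr t ht)
      have hinj := hINJ m d p A hc _ hg.1 hg.2.2
      have hR1 : Root A (z + t • u) Y1 := ⟨hY10, hztY t, hZ _ (hztY t)⟩
      obtain ⟨α, β, hUd⟩ := hdec t U hU
      have hder : dAY A U (z + t • u) Y1 = 0 := by
        have hpoly : H87.FG.LA (sw A) Y1 U (z + t • u) =
            Polynomial.C (β ^ d * AA A (z + t • u) (W t)) * Polynomial.X ^ d := by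
          apply H87.FG.poly_ext_inf Set.infinite_univ
          intro x _
          rw [H87.FG.eval_LA, hsw, Polynomial.eval_mul, Polynomial.eval_C, Polynomial.eval_pow,
            Polynomial.eval_X]
          have h1 : Y1 + x • U = (1 + x * α) • Y1 + (x * β) • W t := by
            rw [hUd, smul_add, smul_smul, smul_smul, add_smul, one_smul]; abel
          rw [h1, hform, mul_pow]
          ring
        have h2 := H87.FG.deriv_LA (sw A) Y1 U (z + t • u) 0
        rw [hpoly, zero_smul, add_zero, hdsw] at h2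
        rw [← h2, Polynomial.derivative_C_mul_X_pow, Polynomial.eval_mul, Polynomial.eval_C,
          Polynomial.eval_pow, Polynomial.eval_X, zero_pow (by omega), mul_zero]
      exact mult_of_not_li hE1 ((hPAR m d p A hc _ hinj).2 Y1 U hR1 hU hder)
    intro U
    -- a second plane
    obtain ⟨t1, ht1, ht10⟩ : ∃ t1 : ℂ, ‖t1‖ < r ∧ t1 ≠ 0 := by
      refine ⟨((r / 2 : ℝ) : ℂ), ?_, ?_⟩
      · rw [Complex.norm_real, Real.norm_eq_abs, abs_of_pos (half_pos hr0)]
        exact half_lt_self hr0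
      · exact_mod_cast (half_pos hr0).ne'
    have hli : LinearIndependent ℂ ![z, z + t1 • u] := by
      rw [LinearIndependent.pair_iff]
      intro a b hab
      have h1 : dt k (a • z + b • (z + t1 • u)) = 0 := by rw [hab, dt_zero_right]
      rw [dt_add_right, dt_smul_right, dt_smul_right, hztk] at h1
      have h2 : (a + b) * dt k z = 0 := by linear_combination h1
      have h3 : a + b = 0 := (mul_eq_zero.1 h2).resolve_right hk
      have h4 : (b * t1) • u = 0 := by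
        have h5 : a • z + b • (z + t1 • u) = (a + b) • z + (b * t1) • u := by
          rw [smul_add, smul_smul, add_smul]; abel
        rw [h5, h3, zero_smul, zero_add] at hab
        exact hab
      have h5 : b * t1 = 0 := (smul_eq_zero.1 h4).resolve_right hu0
      have h6 : b = 0 := (mul_eq_zero.1 h5).resolve_right ht10
      exact ⟨by rw [h6, add_zero] at h3; exact h3, h6⟩
    obtain ⟨h', hh'⟩ := exists_dual (cr_ne_of_li hli)
    obtain ⟨v, hv1, hv2⟩ : ∃ v : Fin 3 → ℂ, dt (z + t1 • u) v = 0 ∧ dt z v ≠ 0 := by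
      refine ⟨cr (z + t1 • u) h', cr_left _ _, ?_⟩
      rw [dt_cr, dt_cr]
      exact hh'
    obtain ⟨c1, hc1⟩ := hstep t1 ht1 ((dt z U / dt z v) • v) (by rw [dt_smul_right, hv1, mul_zero])
    obtain ⟨c0, hc0⟩ := hstep 0 (by simpa using hr0) (U - (dt z U / dt z v) • v) (by
      rw [zero_smul, add_zero, dt_sub_right, dt_smul_right, div_mul_cancel₀ _ hv2, sub_self])
    refine ⟨c0 + c1, ?_⟩
    have e : U = (U - (dt z U / dt z v) • v) + (dt z U / dt z v) • v := by abel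
    rw [e, dp_add, hc0, hc1, add_smul]

theorem not_li_of_mult {n : ℕ} {a b : Fin n → ℂ} (ha : a ≠ 0) {c : ℂ} (h : b = c • a) :
    ¬ LinearIndependent ℂ ![a, b] := by
  rw [li_iff ha]
  push Not
  exact ⟨c, h.symm⟩

theorem t_I1 (hBAS : S_BAS) (hINJ : S_INJ) (hPAR : S_PAR) (hSWAP : S_SWAP) : S_I1 := by
  intro m d p A hc z0 ε hε hyp z hz
  obtain ⟨Y1, hY10, hzY, hZ⟩ := (hyp z hz).2
  have hg : ∀ z, ‖z - z0‖ < ε → Good p A z := fun z hz => (hyp z hz).1
  obtain ⟨c1, -⟩ := core hBAS hINJ hPAR hSWAP hc hg hz hY10 hzY hZ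
  have hA2 := (hBAS m d p A hc).2.2.2.2.1
  refine ⟨?_, ?_⟩
  · intro Y Y' hR hR'
    obtain ⟨a, ha⟩ := c1 Y hR
    obtain ⟨b, hb⟩ := c1 Y' hR'
    have ha0 : a ≠ 0 := by rintro rfl; rw [zero_smul] at ha; exact hR.1 ha
    refine not_li_of_mult hR.1 (c := b / a) ?_
    rw [hb, ha, smul_smul, div_mul_cancel₀ _ ha0]
  · intro Y hR U
    obtain ⟨a, ha⟩ := c1 Y hR
    have ha0 : a ≠ 0 := by rintro rfl; rw [zero_smul] at ha; exact hR.1 ha
    have hZY : ∀ z', dt z' Y = 0 → AA A z' Y = 0 := by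
      intro z' hz'
      rw [ha, dt_smul_right] at hz'
      rw [ha, hA2, hZ z' ((mul_eq_zero.1 hz').resolve_left ha0), mul_zero]
    obtain ⟨-, c2⟩ := core hBAS hINJ hPAR hSWAP hc hg hz hR.1 hR.2.1 hZY
    obtain ⟨c, hcU⟩ := c2 U
    exact not_li_of_mult ((hg z hz).2.1 Y hR.1 hR.2.1) hcU

end H55.FH
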