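import Pool.Agent.H55.FH.Vec

/-! # Crew FH, part NO3 -/

open MvPolynomial

namespace H55.FH
open H95.FG H95.FH

/-- if `ev (cp p) Y2` is a nonzero multiple of `ev (cp p) Y1`, then `A(·, Y1)` vanishes on `Y2^⊥` -/
theorem vanish (hBAS : S_BAS) {m d : ℕ} {p : P3 m} {A : Q3} (hc : Ctx m d p A) {Y1 Y2 : Fin 3 → ℂ}
    (hli : LinearIndependent ℂ ![Y1, Y2]) {c : ℂ} (hc0 : c ≠ 0)
    (hev : ev (cp p) Y2 = c • ev (cp p) Y1) {v : Fin 3 → ℂ} (hv : dt v Y2 = 0) :
    AA A v Y1 = 0 := by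
  obtain ⟨hK, -⟩ := hBAS m d p A hc
  -- `v'` in `Y2^⊥`, not in `Y1^⊥`
  obtain ⟨h', hh'⟩ := exists_dual (cr_ne_of_li hli)
  set v' := cr Y2 h' with hv'
  have hv'2 : dt v' Y2 = 0 := by rw [dt_comm]; exact cr_left _ _
  have hv'1 : dt v' Y1 ≠ 0 := by
    rw [dt_comm, hv', ← dt_cr h' Y1 Y2]
    exact hh'
  have key : ∀ t : ℂ, dt (v + t • v') Y1 * AA A (v + t • v') Y1 = 0 := by
    intro t
    have h1 := hK (v + t • v') Y1
    have h2 := hK (v + t • v') Y2
    have h3 : dt (v + t • v') Y2 = 0 := by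
      rw [dt_add_left, dt_smul_left, hv, hv'2]; ring
    rw [h3, zero_mul, hev] at h2
    have h4 : c * ∑ j, ev p (v + t • v') j * ev (cp p) Y1 j = 0 := by
      rw [Finset.mul_sum, ← h2]
      refine Finset.sum_congr rfl fun j _ => ?_
      rw [Pi.smul_apply, smul_eq_mul]
      ring
    rw [← h1]
    exact (mul_eq_zero.1 h4).resolve_left hc0
  have hS : ({(- dt v Y1 / dt v' Y1)} : Set ℂ)ᶜ.Infinite := (Set.finite_singleton _).infinite_compl
  have hzero : H87.FG.LA A v v' Y1 = 0 := by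
    apply H87.FG.poly_ext_inf hS
    intro x hx
    rw [H87.FG.eval_LA, Polynomial.eval_zero]
    refine (mul_eq_zero.1 (key x)).resolve_left ?_
    intro h0
    apply hx
    rw [dt_add_left, dt_smul_left] at h0
    rw [Set.mem_singleton_iff, eq_div_iff hv'1]
    linear_combination h0
  have := H87.FG.eval_LA A v v' Y1 0
  rw [hzero, Polynomial.eval_zero, zero_smul, add_zero] at this
  exact this.symm

theorem t_NO3 (hSIM : S_SIM) (hBAS : S_BAS) (hPAR : S_PAR) (hINJ : S_INJ) (hSWAP : S_SWAP) :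
    S_NO3 := by
  intro m d p A hc hd z hz
  classical
  obtain ⟨hK, hp1, hp2, hA1, hA2, -⟩ := hBAS m d p A hc
  obtain ⟨-, hsw, hdsw, -⟩ := hSWAP m d p A hc
  obtain ⟨⟨hgz, hgY, Y0, hY0z, hY0A⟩, hgr⟩ := hz
  have hz : Great p A z := ⟨⟨hgz, hgY, Y0, hY0z, hY0A⟩, hgr⟩
  have hinj := hINJ m d p A hc z hgz ⟨Y0, hY0z, hY0A⟩
  have hz0 : z ≠ 0 := by
    rintro rfl
    apply hgz
    have := hp1 0 0
    rw [zero_smul, zero_pow (by omega), zero_smul] at this
    exact this
  have hY00 : Y0 ≠ 0 := by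
    rintro rfl
    apply hY0A
    have := hA2 0 z 0
    rw [zero_smul, zero_pow (by omega), zero_mul] at this
    exact this
  -- the second basis vector of `z^⊥`
  obtain ⟨h, hh⟩ := exists_dual hY00
  set W := cr z h with hW
  have hW0 : W ≠ 0 := cr_ne hz0 hY0z hh
  have hzW : dt z W = 0 := cr_left _ _
  have hhW : dt h W = 0 := cr_right _ _
  have hliW : LinearIndependent ℂ ![Y0, W] := by
    rw [li_iff hY00]
    intro c hcW
    have h1 : dt h W = c * dt h Y0 := by rw [← hcW, dt_smul_right]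
    rw [hhW] at h1
    have h2 : c = 0 := (mul_eq_zero.1 h1.symm).resolve_right hh
    rw [h2, zero_smul] at hcW
    exact hW0 hcW.symm
  -- the polynomial
  set f := H87.FG.LA (sw A) W Y0 z with hf
  have fev : ∀ x, f.eval x = AA A z (W + x • Y0) := by
    intro x; rw [hf, H87.FG.eval_LA, hsw]
  have fdeg := H87.FG.LA_deg (d := d) (sw A) z (fun c Y => by rw [hsw, hsw]; exact hA2 c z Y) W Y0
  have fder : ∀ x, (Polynomial.derivative f).eval x = dAY A Y0 z (W + x • Y0) := by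
    intro x; rw [hf, H87.FG.deriv_LA, hdsw]
  have fcoeff : f.coeff d ≠ 0 := by rw [hf, fdeg.2, hsw]; exact hY0A
  have f0 : f ≠ 0 := by
    intro h0; apply fcoeff; rw [h0, Polynomial.coeff_zero]
  have fnat : f.natDegree = d := le_antisymm fdeg.1 (Polynomial.le_natDegree_of_ne_zero fcoeff)
  have hY : ∀ x : ℂ, W + x • Y0 ≠ 0 ∧ dt z (W + x • Y0) = 0 := by
    intro x
    refine ⟨?_, by rw [dt_add_right, dt_smul_right, hzW, hY0z]; ring⟩
    intro h0
    have := (LinearIndependent.pair_iff.1 hliW) x 1 (by rw [one_smul, add_comm]; exact h0)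
    exact one_ne_zero this.2
  have hroot : ∀ x : ℂ, f.IsRoot x → Root A z (W + x • Y0) := by
    intro x hx
    refine ⟨(hY x).1, (hY x).2, ?_⟩
    rw [← fev]; exact hx
  have hsimple : ∀ x : ℂ, f.IsRoot x → ¬ (Polynomial.derivative f).IsRoot x := by
    intro x hx hx'
    rw [Polynomial.IsRoot, fder] at hx'
    obtain ⟨c, hcc⟩ := (hSIM m d p A hc z (W + x • Y0) hz (hroot x hx)).1 Y0 hY0z hx'
    have := (LinearIndependent.pair_iff.1 hliW) (1 - c * x) (-c) (by
      have h1 : (1 - c * x) • Y0 + (-c) • W = Y0 - c • (W + x • Y0) := by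
        rw [smul_add, sub_smul, smul_smul, one_smul, neg_smul]; abel
      rw [h1, ← hcc, sub_self])
    have h2 : c = 0 := neg_eq_zero.1 this.2
    rw [h2] at this
    simp at this
  have hnodup : f.roots.Nodup := by
    rw [Multiset.nodup_iff_count_le_one]
    intro a
    rw [Polynomial.count_roots]
    by_contra hlt
    push Not at hlt
    rw [Polynomial.one_lt_rootMultiplicity_iff_isRoot f0] at hlt
    exact hsimple a hlt.1 hlt.2
  have hcard : f.roots.toFinset.card = d := by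
    rw [Multiset.toFinset_card_of_nodup hnodup, ← fnat]
    exact (IsAlgClosed.splits f).natDegree_eq_card_roots.symm
  obtain ⟨a, ha, b, hb, c, hcc, hab, hac, hbc⟩ := Finset.two_lt_card.1 (by omega : 2 < f.roots.toFinset.card)
  have hra : f.IsRoot a := (Polynomial.mem_roots f0).1 (Multiset.mem_toFinset.1 ha)
  have hrb : f.IsRoot b := (Polynomial.mem_roots f0).1 (Multiset.mem_toFinset.1 hb)
  have hrc : f.IsRoot c := (Polynomial.mem_roots f0).1 (Multiset.mem_toFinset.1 hcc)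
  have hli : ∀ x y : ℂ, x ≠ y → LinearIndependent ℂ ![W + x • Y0, W + y • Y0] := by
    intro x y hxy
    rw [LinearIndependent.pair_iff]
    intro s t hst
    have := (LinearIndependent.pair_iff.1 hliW) (s * x + t * y) (s + t) (by
      rw [← hst]
      simp only [smul_add, add_smul, smul_smul]
      abel)
    obtain ⟨h1, h2⟩ := this
    have h3 : t = -s := by linear_combination h2
    rw [h3] at h1
    have h4 : s * (x - y) = 0 := by linear_combination h1
    have h5 : s = 0 := (mul_eq_zero.1 h4).resolve_right (sub_ne_zero.2 hxy)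
    exact ⟨h5, by rw [h3, h5, neg_zero]⟩
  set Y1 := W + a • Y0 with hY1
  set Y2 := W + b • Y0 with hY2
  set Y3 := W + c • Y0 with hY3
  have R1 := hroot a hra
  have R2 := hroot b hrb
  have R3 := hroot c hrc
  have E1 := hgY Y1 R1.1 R1.2.1
  have E2 := hgY Y2 R2.1 R2.2.1
  have E3 := hgY Y3 R3.1 R3.2.1
  obtain ⟨c2, hc2⟩ := mult_of_not_li E1 ((hPAR m d p A hc z hinj).1 Y1 Y2 R1 R2)
  obtain ⟨c3, hc3⟩ := mult_of_not_li E1 ((hPAR m d p A hc z hinj).1 Y1 Y3 R1 R3)
  have hc20 : c2 ≠ 0 := by rintro rfl; rw [zero_smul] at hc2; exact E2 hc2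
  have hc30 : c3 ≠ 0 := by rintro rfl; rw [zero_smul] at hc3; exact E3 hc3
  have hder : ∀ Y', LinearIndependent ℂ ![Y1, Y'] → dt z Y' = 0 →
      (∃ c' : ℂ, c' ≠ 0 ∧ ev (cp p) Y' = c' • ev (cp p) Y1) → ∀ u, dt u Y' = 0 →
      dA A u z Y1 = 0 := by
    rintro Y' hl hzY' ⟨c', hc'0, hc'⟩ u hu
    have hzero : H87.FG.LA A z u Y1 = 0 := by
      apply H87.FG.poly_ext_inf Set.infinite_univ
      intro x _
      rw [H87.FG.eval_LA, Polynomial.eval_zero]
      exact vanish hBAS hc hl hc'0 hc' (by rw [dt_add_left, dt_smul_left, hzY', hu]; ring)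
    have := H87.FG.deriv_LA A z u Y1 0
    rw [hzero, Polynomial.derivative_zero, Polynomial.eval_zero, zero_smul, add_zero] at this
    exact this.symm
  have hall : ∀ u, dA A u z Y1 = 0 := by
    intro u
    -- `v2 ∈ Y2^⊥` with `v2 · Y3 ≠ 0`
    obtain ⟨h', hh'⟩ := exists_dual (cr_ne_of_li (hli c b (Ne.symm hbc)))
    set v2 := cr Y2 h' with hv2
    have hv22 : dt v2 Y2 = 0 := by rw [dt_comm]; exact cr_left _ _
    have hv23 : dt v2 Y3 ≠ 0 := by
      rw [dt_comm, hv2, ← dt_cr h' Y3 Y2]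
      exact hh'
    have e : u = (dt u Y3 / dt v2 Y3) • v2 + (u - (dt u Y3 / dt v2 Y3) • v2) := by abel
    rw [e, dA_add,
      hder Y2 (hli a b hab) R2.2.1 ⟨c2, hc20, hc2⟩ _ (by rw [dt_smul_left, hv22, mul_zero]),
      hder Y3 (hli a c hac) R3.2.1 ⟨c3, hc30, hc3⟩ _ (by
        rw [dt_sub_left, dt_smul_left, div_mul_cancel₀ _ hv23, sub_self]), add_zero]
  -- contradiction to simplicity in the variable `z`
  obtain ⟨k, hk⟩ := exists_dual hz0
  have hcr : cr Y1 k ≠ 0 := cr_ne R1.1 (by rw [dt_comm]; exact R1.2.1) hk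
  obtain ⟨e, he⟩ := (hSIM m d p A hc z Y1 hz R1).2 (cr Y1 k) (by rw [dt_comm]; exact cr_left _ _)
    (hall _)
  have h1 : dt k (cr Y1 k) = 0 := cr_right _ _
  rw [he, dt_smul_right] at h1
  have h2 : e = 0 := (mul_eq_zero.1 h1).resolve_right hk
  rw [h2, zero_smul] at he
  exact hcr he

end H55.FH
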