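import Pool.Agent.H55.FH.Vec

/-! # Crew FH, part RO -/

open MvPolynomial Filter Topology

namespace H55.FH
open H95.FG H95.FH

/-- a root near `0` -/
theorem root_small (g : Polynomial ℂ) (D : ℕ) (hD : g.natDegree ≤ D) (η : ℝ) (hη : 0 < η)
    (h1 : (D : ℝ) * ‖g.eval 0‖ < η * ‖(Polynomial.derivative g).eval 0‖) :
    ∃ s : ℂ, ‖s‖ ≤ η ∧ g.eval s = 0 := by
  by_cases h0 : g.eval 0 = 0
  · exact ⟨0, by simpa using hη.le, h0⟩
  by_contra hcon
  push Not at hcon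
  have hg : g ≠ 0 := by rintro rfl; simp at h0
  have hsum := (IsAlgClosed.splits g).eval_derivative_div_eval_of_ne_zero h0
  have hbound : ‖(Polynomial.derivative g).eval 0 / g.eval 0‖ ≤ D * (1 / η) := by
    rw [hsum]
    have h2 : ∀ z ∈ g.roots, ‖(1 : ℂ) / (0 - z)‖ ≤ 1 / η := by
      intro z hz
      have hr : g.eval z = 0 := (Polynomial.mem_roots hg).1 hz
      have hlt : η < ‖z‖ := by
        by_contra hle
        push Not at hle
        exact hcon z hle hr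
      rw [zero_sub, norm_div, norm_one, norm_neg]
      exact one_div_le_one_div_of_le hη hlt.le
    have h3 : ∀ S : Multiset ℂ, (∀ z ∈ S, ‖(1 : ℂ) / (0 - z)‖ ≤ 1 / η) →
        ‖(S.map fun z => (1 : ℂ) / (0 - z)).sum‖ ≤ S.card * (1 / η) := by
      intro S
      induction S using Multiset.induction_on with
      | empty => intro _; simp
      | cons a S ih =>
        intro hS
        rw [Multiset.map_cons, Multiset.sum_cons, Multiset.card_cons]
        have ha := hS a (Multiset.mem_cons_self a S)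
        have hb := ih (fun z hz => hS z (Multiset.mem_cons_of_mem hz))
        push_cast
        calc ‖(1 : ℂ) / (0 - a) + (S.map fun z => (1 : ℂ) / (0 - z)).sum‖
            ≤ ‖(1 : ℂ) / (0 - a)‖ + ‖(S.map fun z => (1 : ℂ) / (0 - z)).sum‖ := norm_add_le _ _
          _ ≤ 1 / η + S.card * (1 / η) := add_le_add ha hb
          _ = _ := by ring
    refine (h3 _ h2).trans ?_
    refine mul_le_mul_of_nonneg_right ?_ (by positivity)
    exact_mod_cast (Polynomial.card_roots' g).trans hD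
  rw [norm_div] at hbound
  have hpos : 0 < ‖g.eval 0‖ := norm_pos_iff.2 h0
  rw [div_le_iff₀ hpos] at hbound
  have : η * ‖(Polynomial.derivative g).eval 0‖ ≤ D * ‖g.eval 0‖ := by
    have := mul_le_mul_of_nonneg_left hbound hη.le
    calc η * ‖(Polynomial.derivative g).eval 0‖ ≤ η * (D * (1 / η) * ‖g.eval 0‖) := this
      _ = D * ‖g.eval 0‖ := by field_simp
  linarith

/-- projection to `Y^⊥` along `h` -/
noncomputable def PY (h x Y : Fin 3 → ℂ) : Fin 3 → ℂ := x - (dt x Y / dt h Y) • h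

theorem dt_PY {h x Y : Fin 3 → ℂ} (hY : dt h Y ≠ 0) : dt (PY h x Y) Y = 0 := by
  unfold PY
  rw [dt_sub_left, dt_smul_left, div_mul_cancel₀ _ hY, sub_self]

theorem PY_self {h x Y : Fin 3 → ℂ} (hx : dt x Y = 0) : PY h x Y = x := by
  unfold PY
  rw [hx, zero_div, zero_smul, sub_zero]

theorem continuous_dt (h : Fin 3 → ℂ) : Continuous (fun Y : Fin 3 → ℂ => dt h Y) := by
  unfold dt
  fun_prop

theorem PY_cont {h x Y : Fin 3 → ℂ} (hY : dt h Y ≠ 0) :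
    ContinuousAt (fun Y => PY h x Y) Y := by
  have h1 : ContinuousAt (fun Y => dt x Y / dt h Y) Y :=
    (continuous_dt x).continuousAt.div (continuous_dt h).continuousAt hY
  unfold PY
  fun_prop

theorem AA_tendsto (A : Q3) {l : Filter (Fin 3 → ℂ)} {f g : (Fin 3 → ℂ) → (Fin 3 → ℂ)}
    {a b : Fin 3 → ℂ} (hf : Tendsto f l (𝓝 a)) (hg : Tendsto g l (𝓝 b)) :
    Tendsto (fun Y => AA A (f Y) (g Y)) l (𝓝 (AA A a b)) := by
  have h0 : Tendsto (fun x : Fin 3 ⊕ Fin 3 → ℂ => eval x A) (𝓝 (Sum.elim a b))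
      (𝓝 (eval (Sum.elim a b) A)) := (MvPolynomial.continuous_eval A).tendsto _
  have h2 : Tendsto (fun Y => (Sum.elim (f Y) (g Y) : Fin 3 ⊕ Fin 3 → ℂ)) l
      (𝓝 (Sum.elim a b)) := by
    refine tendsto_pi_nhds.2 ?_
    intro i
    rcases i with k | k
    · exact (tendsto_pi_nhds.1 hf) k
    · exact (tendsto_pi_nhds.1 hg) k
  have h3 := h0.comp h2
  unfold AA
  exact h3

theorem dA_tendsto (A : Q3) {l : Filter (Fin 3 → ℂ)} {e f g : (Fin 3 → ℂ) → (Fin 3 → ℂ)}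
    {c a b : Fin 3 → ℂ} (he : Tendsto e l (𝓝 c)) (hf : Tendsto f l (𝓝 a))
    (hg : Tendsto g l (𝓝 b)) :
    Tendsto (fun Y => dA A (e Y) (f Y) (g Y)) l (𝓝 (dA A c a b)) := by
  unfold dA
  refine tendsto_finsetSum _ fun k _ => ?_
  exact ((tendsto_pi_nhds.1 he) k).mul (AA_tendsto (pderiv (Sum.inl k) A) hf hg)

theorem LA_natDegree (A : Q3) (w v Y : Fin 3 → ℂ) :
    (H87.FG.LA A w v Y).natDegree ≤ A.totalDegree * 1 := by
  unfold H87.FG.LA
  refine MvPolynomial.aeval_natDegree_le A (le_refl _) _ ?_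
  intro i
  rcases i with k | k
  · simp only [Sum.elim_inl]
    refine (Polynomial.natDegree_add_le _ _).trans ?_
    refine max_le (by simp) ?_
    exact (Polynomial.natDegree_C_mul_le _ _).trans (by simp)
  · simp

theorem t_RO (hSIM : S_SIM) (hBAS : S_BAS) : S_RO := by
  intro m p A hc z1 Y1 ε hε hz1 hR
  obtain ⟨hY10, hzY, hAz⟩ := hR
  have hz10 : z1 ≠ 0 := by
    rintro rfl
    apply hz1.1.1
    have := (hBAS m 2 p A hc).2.1 0 0
    rw [zero_smul, zero_pow (by omega), zero_smul] at this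
    exact this
  -- `u ∈ Y1^⊥` not parallel to `z1`
  obtain ⟨k, hk⟩ := exists_dual hz10
  set u := cr Y1 k with hu
  have hu0 : u ≠ 0 := cr_ne hY10 (by rw [dt_comm]; exact hzY) hk
  have huY : dt u Y1 = 0 := by rw [dt_comm]; exact cr_left _ _
  have hc1 : dA A u z1 Y1 ≠ 0 := by
    intro h0
    obtain ⟨e, he⟩ := (hSIM m 2 p A hc z1 Y1 hz1 ⟨hY10, hzY, hAz⟩).2 u huY h0
    have h1 : dt k u = 0 := cr_right _ _
    rw [he, dt_smul_right] at h1
    have h2 : e = 0 := (mul_eq_zero.1 h1).resolve_right hk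
    rw [h2, zero_smul] at he
    exact hu0 he
  obtain ⟨h, hh⟩ := exists_dual hY10
  obtain ⟨D, hD⟩ : ∃ D : ℕ, ∀ w v Y : Fin 3 → ℂ, (H87.FG.LA A w v Y).natDegree ≤ D :=
    ⟨_, fun w v Y => LA_natDegree A w v Y⟩
  obtain ⟨η, hη0, hη⟩ : ∃ η : ℝ, 0 < η ∧ η * (‖u‖ + 1) = ε / 2 :=
    ⟨ε / (2 * (‖u‖ + 1)), by positivity, by field_simp⟩
  -- continuity at `Y1`
  have cz : ContinuousAt (fun Y => PY h z1 Y) Y1 := PY_cont hh
  have cu : ContinuousAt (fun Y => PY h u Y) Y1 := PY_cont hh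
  have cid : Tendsto (fun Y : Fin 3 → ℂ => Y) (𝓝 Y1) (𝓝 Y1) := tendsto_id
  have cz' : Tendsto (fun Y => PY h z1 Y) (𝓝 Y1) (𝓝 (PY h z1 Y1)) := cz
  have cu' : Tendsto (fun Y => PY h u Y) (𝓝 Y1) (𝓝 (PY h u Y1)) := cu
  have c0 := AA_tendsto A cz' cid
  have c1 := dA_tendsto A cu' cz' cid
  have e1 : ∀ᶠ Y in 𝓝 Y1, dt h Y ≠ 0 := (continuous_dt h).continuousAt.eventually_ne hh
  have e2 : ∀ᶠ Y in 𝓝 Y1, Y ≠ 0 := eventually_ne_nhds hY10
  have e3 : ∀ᶠ Y in 𝓝 Y1, ‖PY h z1 Y - z1‖ < ε / 2 := by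
    have hlim : Tendsto (fun Y => ‖PY h z1 Y - z1‖) (𝓝 Y1) (𝓝 ‖PY h z1 Y1 - z1‖) :=
      (cz.sub continuousAt_const).norm
    rw [PY_self hzY, sub_self, norm_zero] at hlim
    exact hlim.eventually (gt_mem_nhds (half_pos hε))
  have e4 : ∀ᶠ Y in 𝓝 Y1, ‖PY h u Y‖ < ‖u‖ + 1 := by
    have hlim : Tendsto (fun Y => ‖PY h u Y‖) (𝓝 Y1) (𝓝 ‖PY h u Y1‖) := cu.norm
    rw [PY_self huY] at hlim
    exact hlim.eventually (gt_mem_nhds (lt_add_one _))
  have e5 : ∀ᶠ Y in 𝓝 Y1, (D : ℝ) * ‖AA A (PY h z1 Y) Y‖ <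
      η * ‖dA A (PY h u Y) (PY h z1 Y) Y‖ := by
    have hl1 : Tendsto (fun Y => (D : ℝ) * ‖AA A (PY h z1 Y) Y‖) (𝓝 Y1) (𝓝 0) := by
      have : Tendsto (fun Y => (D : ℝ) * ‖AA A (PY h z1 Y) Y‖) (𝓝 Y1)
          (𝓝 ((D : ℝ) * ‖AA A (PY h z1 Y1) Y1‖)) := c0.norm.const_mul _
      rw [PY_self hzY, hAz, norm_zero, mul_zero] at this
      exact this
    have hl2 : Tendsto (fun Y => η * ‖dA A (PY h u Y) (PY h z1 Y) Y‖) (𝓝 Y1)
        (𝓝 (η * ‖dA A u z1 Y1‖)) := by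
      have : Tendsto (fun Y => η * ‖dA A (PY h u Y) (PY h z1 Y) Y‖) (𝓝 Y1)
          (𝓝 (η * ‖dA A (PY h u Y1) (PY h z1 Y1) Y1‖)) := c1.norm.const_mul _
      rw [PY_self hzY, PY_self huY] at this
      exact this
    exact hl1.eventually_lt hl2 (by positivity)
  obtain ⟨δ, hδ, hball⟩ := Metric.eventually_nhds_iff.1 (e1.and (e2.and (e3.and (e4.and e5))))
  refine ⟨δ, hδ, fun Y hY => ?_⟩
  obtain ⟨f1, f2, f3, f4, f5⟩ := hball (by rwa [dist_eq_norm] : dist Y Y1 < δ)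
  set g := H87.FG.LA A (PY h z1 Y) (PY h u Y) Y with hg
  have g0 : g.eval 0 = AA A (PY h z1 Y) Y := by
    rw [hg, H87.FG.eval_LA, zero_smul, add_zero]
  have g1 : (Polynomial.derivative g).eval 0 = dA A (PY h u Y) (PY h z1 Y) Y := by
    rw [hg, H87.FG.deriv_LA, zero_smul, add_zero]
  obtain ⟨s, hs, hgs⟩ := root_small g D (hD _ _ _) η hη0 (by rw [g0, g1]; exact f5)
  refine ⟨PY h z1 Y + s • PY h u Y, ?_, f2, ?_, ?_⟩
  · have h3 : PY h z1 Y + s • PY h u Y - z1 = (PY h z1 Y - z1) + s • PY h u Y := by abel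
    rw [h3]
    have h4 : ‖s • PY h u Y‖ ≤ ε / 2 := by
      rw [norm_smul]
      calc ‖s‖ * ‖PY h u Y‖ ≤ η * (‖u‖ + 1) := by
            exact mul_le_mul hs f4.le (norm_nonneg _) hη0.le
        _ = ε / 2 := hη
    linarith [norm_add_le (PY h z1 Y - z1) (s • PY h u Y)]
  · rw [dt_add_left, dt_smul_left, dt_PY f1, dt_PY f1, mul_zero, add_zero]
  · rw [← H87.FG.eval_LA, ← hg]
    exact hgs

end H55.FH
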