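import Pool.Agent.H95.FH.Defs
import Pool.Agent.H87.FG.CASE2
import Pool.Agent.H15.FG.NV

/-! # Vectors in `ℂ^3` -/

open MvPolynomial

namespace H55.FH
open H95.FG H95.FH

/-- cross product -/
def cr (a b : Fin 3 → ℂ) : Fin 3 → ℂ :=
  ![a 1 * b 2 - a 2 * b 1, a 2 * b 0 - a 0 * b 2, a 0 * b 1 - a 1 * b 0]

theorem dt3 (z Y : Fin 3 → ℂ) : dt z Y = z 0 * Y 0 + z 1 * Y 1 + z 2 * Y 2 := by
  unfold dt; rw [Fin.sum_univ_three]

theorem dt_comm (z Y : Fin 3 → ℂ) : dt z Y = dt Y z := by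
  rw [dt3, dt3]; ring

theorem dt_add_left (a b Y : Fin 3 → ℂ) : dt (a + b) Y = dt a Y + dt b Y := by
  simp only [dt3, Pi.add_apply]; ring

theorem dt_smul_left (c : ℂ) (a Y : Fin 3 → ℂ) : dt (c • a) Y = c * dt a Y := by
  simp only [dt3, Pi.smul_apply, smul_eq_mul]; ring

theorem dt_sub_left (a b Y : Fin 3 → ℂ) : dt (a - b) Y = dt a Y - dt b Y := by
  simp only [dt3, Pi.sub_apply]; ring

theorem dt_add_right (a b Y : Fin 3 → ℂ) : dt Y (a + b) = dt Y a + dt Y b := by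
  simp only [dt3, Pi.add_apply]; ring

theorem dt_smul_right (c : ℂ) (a Y : Fin 3 → ℂ) : dt Y (c • a) = c * dt Y a := by
  simp only [dt3, Pi.smul_apply, smul_eq_mul]; ring

theorem dt_sub_right (a b Y : Fin 3 → ℂ) : dt Y (a - b) = dt Y a - dt Y b := by
  simp only [dt3, Pi.sub_apply]; ring

theorem dt_zero_left (Y : Fin 3 → ℂ) : dt 0 Y = 0 := by simp [dt3]

theorem dt_zero_right (Y : Fin 3 → ℂ) : dt Y 0 = 0 := by simp [dt3]

theorem cr_left (a b : Fin 3 → ℂ) : dt a (cr a b) = 0 := by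
  rw [dt3]; simp only [cr, Matrix.cons_val_zero, Matrix.cons_val_one, Matrix.cons_val]
  ring

theorem cr_right (a b : Fin 3 → ℂ) : dt b (cr a b) = 0 := by
  rw [dt3]; simp only [cr, Matrix.cons_val_zero, Matrix.cons_val_one, Matrix.cons_val]
  ring

/-- cyclic symmetry of the determinant -/
theorem dt_cr (a b c : Fin 3 → ℂ) : dt a (cr b c) = dt b (cr c a) := by
  rw [dt3, dt3]; simp only [cr, Matrix.cons_val_zero, Matrix.cons_val_one, Matrix.cons_val]
  ring

theorem cr_apply0 (a b : Fin 3 → ℂ) : cr a b 0 = a 1 * b 2 - a 2 * b 1 := rfl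
theorem cr_apply1 (a b : Fin 3 → ℂ) : cr a b 1 = a 2 * b 0 - a 0 * b 2 := rfl
theorem cr_apply2 (a b : Fin 3 → ℂ) : cr a b 2 = a 0 * b 1 - a 1 * b 0 := rfl

theorem vext {a b : Fin 3 → ℂ} (h0 : a 0 = b 0) (h1 : a 1 = b 1) (h2 : a 2 = b 2) : a = b := by
  funext i
  fin_cases i
  · exact h0
  · exact h1
  · exact h2

/-- parallel vectors -/
theorem par_of_cr {a b : Fin 3 → ℂ} (hb : b ≠ 0) (h : cr a b = 0) : ∃ c : ℂ, a = c • b := by
  have h0 : a 1 * b 2 - a 2 * b 1 = 0 := congrFun h 0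
  have h1 : a 2 * b 0 - a 0 * b 2 = 0 := congrFun h 1
  have h2 : a 0 * b 1 - a 1 * b 0 = 0 := congrFun h 2
  obtain ⟨k, hk⟩ := Function.ne_iff.mp hb
  simp only [Pi.zero_apply] at hk
  refine ⟨a k / b k, ?_⟩
  have key : ∀ i, a i * b k = a k * b i := by
    intro i
    fin_cases i <;> fin_cases k <;> simp only [Fin.zero_eta, Fin.mk_one, Fin.reduceFinMk] at hk ⊢ <;>
      first
      | ring1
      | linear_combination h0
      | linear_combination h1
      | linear_combination h2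
      | linear_combination -h0
      | linear_combination -h1
      | linear_combination -h2
  funext i
  rw [Pi.smul_apply, smul_eq_mul, div_mul_eq_mul_div, eq_div_iff hk]
  exact key i

/-- a vector orthogonal to `a` and `h` is a multiple of `a × h` -/
theorem perp2 {x a h : Fin 3 → ℂ} (hc : cr a h ≠ 0) (ha : dt x a = 0) (hh : dt x h = 0) :
    ∃ c : ℂ, x = c • cr a h := by
  apply par_of_cr hc
  rw [dt3] at ha hh
  apply vext
  · rw [cr_apply0, cr_apply1, cr_apply2, Pi.zero_apply]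
    linear_combination a 0 * hh - h 0 * ha
  · rw [cr_apply1, cr_apply0, cr_apply2, Pi.zero_apply]
    linear_combination a 1 * hh - h 1 * ha
  · rw [cr_apply2, cr_apply0, cr_apply1, Pi.zero_apply]
    linear_combination a 2 * hh - h 2 * ha

theorem exists_dual {Y : Fin 3 → ℂ} (hY : Y ≠ 0) : ∃ w : Fin 3 → ℂ, dt w Y ≠ 0 := by
  obtain ⟨w, hw⟩ := H15.FG.exists_dual hY
  refine ⟨w, ?_⟩
  have : dt w Y = 1 := hw
  rw [this]; exact one_ne_zero

/-- if `a · Y = 0`, `a ≠ 0`, `h · Y ≠ 0` then `a × h ≠ 0` -/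
theorem cr_ne {a h Y : Fin 3 → ℂ} (ha : a ≠ 0) (haY : dt a Y = 0) (hhY : dt h Y ≠ 0) :
    cr a h ≠ 0 := by
  intro hc
  have h1 : cr h a = 0 := by
    apply vext
    · have := congrFun hc 0
      rw [cr_apply0, Pi.zero_apply] at this
      rw [cr_apply0, Pi.zero_apply]; linear_combination -this
    · have := congrFun hc 1
      rw [cr_apply1, Pi.zero_apply] at this
      rw [cr_apply1, Pi.zero_apply]; linear_combination -this
    · have := congrFun hc 2
      rw [cr_apply2, Pi.zero_apply] at this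
      rw [cr_apply2, Pi.zero_apply]; linear_combination -this
  obtain ⟨c, hc'⟩ := par_of_cr ha h1
  apply hhY
  rw [hc', dt_smul_left, haY, mul_zero]

/-- linearly independent: no multiple -/
theorem li_iff {n : ℕ} {a b : Fin n → ℂ} (ha : a ≠ 0) :
    LinearIndependent ℂ ![a, b] ↔ ∀ c : ℂ, c • a ≠ b := LinearIndependent.pair_iff' ha

theorem mult_of_not_li {n : ℕ} {a b : Fin n → ℂ} (ha : a ≠ 0)
    (h : ¬ LinearIndependent ℂ ![a, b]) : ∃ c : ℂ, b = c • a := by
  rw [li_iff ha] at h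
  push Not at h
  obtain ⟨c, hc⟩ := h
  exact ⟨c, hc.symm⟩

theorem cr_ne_of_li {a b : Fin 3 → ℂ} (h : LinearIndependent ℂ ![a, b]) : cr a b ≠ 0 := by
  intro hc
  have hb : b ≠ 0 := h.ne_zero 1
  obtain ⟨c, rfl⟩ := par_of_cr hb hc
  have := (LinearIndependent.pair_iff.1 h) 1 (-c) (by rw [one_smul, neg_smul, add_neg_cancel])
  exact one_ne_zero this.1

theorem dA_add {A : Q3} (u v z Y : Fin 3 → ℂ) : dA A (u + v) z Y = dA A u z Y + dA A v z Y := by
  unfold dA
  rw [← Finset.sum_add_distrib]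
  refine Finset.sum_congr rfl fun k _ => ?_
  rw [Pi.add_apply, add_mul]

end H55.FH
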